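import Mathlib

/-!
# MP_9100ee_an: weights of normal weighted composition operators with a linear fractional symbol

If `φ(z) = (a z + b) / (c z + d)` is a linear fractional self-map of the unit disc and the weighted
composition operator `f ↦ ψ · (f ∘ φ)` is bounded and normal on the Hardy space, then
`(c z + d) ψ(z)` is constant.
-/

set_option autoImplicit false

namespace Pool.Agent.Results.MP_9100ee_an.NormalWeight

open Metric Set Filter Topology
open scoped ENNReal InnerProductSpace ComplexConjugate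

/-- The Hardy space `H²`, by the Taylor coefficients. -/
abbrev H2 : Type := lp (fun _ : ℕ => ℂ) 2

/-- The value of `f ∈ H²` at a point of the disc. -/
noncomputable def ev (f : H2) (z : ℂ) : ℂ := ∑' n, f n * z ^ n

/-- The bounded operators on `H²`. -/
abbrev Op : Type := H2 →L[ℂ] H2

/-- The value of an operator. -/
noncomputable def ap (A : Op) (f : H2) : H2 := A f

/-- The inner product of `H²`. -/
noncomputable def ip (f g : H2) : ℂ := ∑' n, conj (f n) * g n

/-- `W` is the weighted composition operator with weight symbol `ψ` and composition symbol `φ`. -/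
def IsWeightedComposition (ψ φ : ℂ → ℂ) (W : Op) : Prop :=
  ∀ (f : H2) (z : ℂ), ‖z‖ < 1 → ev (ap W f) z = ψ z * ev f (φ z)

/-- `W` is normal: `W' = W*` satisfies `W W' = W' W`. -/
def IsNormalOp (W : Op) : Prop :=
  ∃ W' : Op, (∀ f g : H2, ip (ap W f) g = ip f (ap W' g)) ∧ ∀ f : H2, ap W (ap W' f) = ap W' (ap W f)

/-- `ψ` is linear fractional on the disc. -/
def IsLinearFractional (ψ : ℂ → ℂ) : Prop :=
  ∃ α β γ δ : ℂ, ∀ z : ℂ, ‖z‖ < 1 → γ * z + δ ≠ 0 ∧ ψ z = (α * z + β) / (γ * z + δ)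

/-! ### The Hardy space -/

lemma ip_def (f g : H2) : ip f g = ⟪f, g⟫_ℂ := by
  rw [ip, lp.inner_eq_tsum]
  congr 1
  funext n
  rw [RCLike.inner_apply, mul_comm]

lemma H2_le (f : H2) (n : ℕ) : ‖f n‖ ≤ ‖f‖ := lp.norm_apply_le_norm (by norm_num) f n

lemma ev_bd (f : H2) (z : ℂ) (n : ℕ) : ‖f n * z ^ n‖ ≤ ‖f‖ * ‖z‖ ^ n := by
  rw [norm_mul, norm_pow]
  exact mul_le_mul_of_nonneg_right (H2_le f n) (by positivity)

lemma ev_summable (f : H2) (z : ℂ) (hz : ‖z‖ < 1) : Summable fun n => f n * z ^ n :=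
  Summable.of_norm_bounded ((summable_geometric_of_lt_one (norm_nonneg _) hz).mul_left _)
    (ev_bd f z)

lemma ev_add (f g : H2) (z : ℂ) (hz : ‖z‖ < 1) : ev (f + g) z = ev f z + ev g z := by
  rw [ev, ev, ev, ← (ev_summable f z hz).tsum_add (ev_summable g z hz)]
  congr 1
  funext n
  rw [lp.coeFn_add, Pi.add_apply, add_mul]

lemma ev_smul (c : ℂ) (f : H2) (z : ℂ) : ev (c • f) z = c * ev f z := by
  rw [ev, ev, ← tsum_mul_left]
  congr 1
  funext n
  rw [lp.coeFn_smul, Pi.smul_apply, smul_eq_mul, mul_assoc]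

/-- Uniqueness of the coefficients of a power series. -/
lemma pow_uniq (c : ℕ → ℂ) (C r : ℝ) (hr : 0 < r) (hc : ∀ m, ‖c m‖ ≤ C)
    (h : ∀ w : ℂ, w ≠ 0 → ‖w‖ < r → ∑' m, c m * w ^ m = 0) : ∀ m, c m = 0 := by
  intro m
  induction m using Nat.strong_induction_on with
  | _ m ih =>
  have hC : 0 ≤ C := (norm_nonneg _).trans (hc 0)
  by_contra hne
  have hpos : 0 < ‖c m‖ := norm_pos_iff.2 hne
  obtain ⟨t, ht0, ht⟩ : ∃ t : ℝ, 0 < t ∧ t < min (min r (1 / 2)) (‖c m‖ / (2 * C + 1)) :=
    exists_between (by positivity)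
  have htr : t < r := ht.trans_le ((min_le_left _ _).trans (min_le_left _ _))
  have ht2 : t < 1 / 2 := ht.trans_le ((min_le_left _ _).trans (min_le_right _ _))
  have ht3 : t < ‖c m‖ / (2 * C + 1) := ht.trans_le (min_le_right _ _)
  have hn : ‖(t : ℂ)‖ = t := by simp [abs_of_pos ht0]
  have hs2 : Summable fun m : ℕ => C * (1 / 2 : ℝ) ^ m := summable_geometric_two.mul_left C
  have hb : ∀ k, ‖c (k + (m + 1)) * (t : ℂ) ^ k‖ ≤ C * (1 / 2 : ℝ) ^ k := fun k => by
    rw [norm_mul, norm_pow, hn]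
    exact mul_le_mul (hc _) (pow_le_pow_left₀ ht0.le ht2.le k) (by positivity) hC
  have hs : Summable fun k => c k * (t : ℂ) ^ k := by
    refine Summable.of_norm_bounded hs2 fun k => ?_
    rw [norm_mul, norm_pow, hn]
    exact mul_le_mul (hc _) (pow_le_pow_left₀ ht0.le ht2.le k) (by positivity) hC
  have h0 := h t (by exact_mod_cast ht0.ne') (by rw [hn]; exact htr)
  rw [← hs.sum_add_tsum_nat_add (m + 1), Finset.sum_range_succ] at h0
  have h1 : ∑ k ∈ Finset.range m, c k * (t : ℂ) ^ k = 0 :=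
    Finset.sum_eq_zero fun k hk => by rw [ih k (Finset.mem_range.1 hk), zero_mul]
  have h2 : ∑' k, c (k + (m + 1)) * (t : ℂ) ^ (k + (m + 1)) =
      (t : ℂ) ^ (m + 1) * ∑' k, c (k + (m + 1)) * (t : ℂ) ^ k := by
    rw [← tsum_mul_left]
    congr 1
    funext k
    ring
  rw [h1, zero_add, h2] at h0
  have h3 : c m + t * ∑' k, c (k + (m + 1)) * (t : ℂ) ^ k = 0 := by
    have ht' : (t : ℂ) ^ m ≠ 0 := pow_ne_zero _ (by exact_mod_cast ht0.ne')
    apply mul_left_cancel₀ ht'
    rw [mul_zero, ← h0]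
    ring
  have h4 : ‖∑' k, c (k + (m + 1)) * (t : ℂ) ^ k‖ ≤ C * 2 :=
    tsum_of_norm_bounded (hasSum_geometric_two.mul_left C) hb
  have h5 : ‖c m‖ ≤ t * (C * 2) := by
    rw [eq_neg_of_add_eq_zero_left h3, norm_neg, norm_mul, hn]
    exact mul_le_mul_of_nonneg_left h4 ht0.le
  rw [lt_div_iff₀ (by positivity)] at ht3
  nlinarith

lemma ev_inj (f g : H2) (h : ∀ z : ℂ, ‖z‖ < 1 → ev f z = ev g z) : f = g := by
  have h0 : ∀ m, (f - g) m = 0 := by
    refine pow_uniq _ ‖f - g‖ 1 one_pos (H2_le _) fun w _ hw => ?_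
    have h1 : ev (f - g) w = 0 := by
      have : f - g = f + (-1 : ℂ) • g := by simp [sub_eq_add_neg]
      rw [this, ev_add _ _ _ hw, ev_smul, h w hw]
      ring
    exact h1
  refine lp.ext (funext fun m => ?_)
  have := h0 m
  rw [lp.coeFn_sub, Pi.sub_apply, sub_eq_zero] at this
  exact this

lemma ev_analytic (f : H2) : AnalyticOnNhd ℂ (ev f) (ball 0 1) := by
  refine DifferentiableOn.analyticOnNhd ?_ isOpen_ball
  intro z hz
  have hz1 : ‖z‖ < 1 := by simpa using hz
  obtain ⟨r, hr1, hr2⟩ := exists_between hz1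
  have hr0 : 0 ≤ r := (norm_nonneg z).trans hr1.le
  have h1 : DifferentiableOn ℂ (fun w => ∑' n, f n * w ^ n) (ball 0 r) := by
    refine Complex.differentiableOn_tsum_of_summable_norm
      ((summable_geometric_of_lt_one hr0 hr2).mul_left ‖f‖) (fun n => ?_) isOpen_ball
      (fun n w hw => ?_)
    · exact Differentiable.differentiableOn (by fun_prop)
    · refine (ev_bd f w n).trans ?_
      have : ‖w‖ ≤ r := by simpa using (mem_ball_zero_iff.1 hw).le
      gcongr
  exact ((h1 z (by simpa using hr1)).differentiableAt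
    (isOpen_ball.mem_nhds (by simpa using hr1))).differentiableWithinAt

/-- The reproducing kernels. -/
noncomputable def K (w : ℂ) (hw : ‖w‖ < 1) : H2 :=
  ⟨fun n => conj w ^ n, by
    refine memℓp_gen ?_
    have : Summable fun n : ℕ => (‖w‖ ^ 2) ^ n :=
      summable_geometric_of_lt_one (by positivity) (by
        have := norm_nonneg w
        nlinarith)
    refine this.congr fun n => ?_
    rw [norm_pow, RCLike.norm_conj]
    simp only [ENNReal.toReal_ofNat, Real.rpow_ofNat]
    rw [← pow_mul, ← pow_mul, mul_comm]⟩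

lemma K_apply (w : ℂ) (hw : ‖w‖ < 1) (n : ℕ) : K w hw n = conj w ^ n := rfl

lemma ip_K (w : ℂ) (hw : ‖w‖ < 1) (f : H2) : ip (K w hw) f = ev f w := by
  rw [ip_def, lp.inner_eq_tsum, ev]
  congr 1
  funext n
  rw [K_apply, RCLike.inner_apply, map_pow, Complex.conj_conj]

lemma ev_K (w : ℂ) (hw : ‖w‖ < 1) (z : ℂ) (hz : ‖z‖ < 1) :
    ev (K w hw) z = 1 / (1 - conj w * z) := by
  have h1 : ‖conj w * z‖ < 1 := by
    rw [norm_mul, RCLike.norm_conj]
    have := norm_nonneg w
    have := norm_nonneg z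
    nlinarith
  rw [ev, one_div, ← tsum_geometric_of_norm_lt_one h1]
  congr 1
  funext n
  rw [K_apply, mul_pow]

/-- The shift. -/
noncomputable def S (f : H2) : H2 :=
  ⟨fun n => if n = 0 then 0 else f (n - 1), by
    refine memℓp_gen ?_
    have h1 := (lp.memℓp f).summable (by norm_num)
    rw [← summable_nat_add_iff 1]
    simpa using h1⟩

lemma S_coe (f : H2) (n : ℕ) : S f n = if n = 0 then 0 else f (n - 1) := rfl

lemma S_zero (f : H2) : S f 0 = 0 := by rw [S_coe, if_pos rfl]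

lemma S_succ (f : H2) (n : ℕ) : S f (n + 1) = f n := by
  rw [S_coe, if_neg (Nat.succ_ne_zero n), Nat.add_sub_cancel]

lemma ip_S (f g : H2) : ip (S f) (S g) = ip f g := by
  have h1 : ip (S f) (S g) = ⟪S f 0, S g 0⟫_ℂ + ∑' n, ⟪S f (n + 1), S g (n + 1)⟫_ℂ := by
    rw [ip_def, lp.inner_eq_tsum]
    exact (lp.summable_inner (𝕜 := ℂ) (S f) (S g)).tsum_eq_zero_add
  have h2 : ∀ n, ⟪S f (n + 1), S g (n + 1)⟫_ℂ = ⟪f n, g n⟫_ℂ := fun n => by
    rw [S_succ, S_succ]
  rw [h1, tsum_congr h2, S_zero, S_zero, inner_zero_left, zero_add, ip_def, lp.inner_eq_tsum]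

lemma ev_S (f : H2) (z : ℂ) (hz : ‖z‖ < 1) : ev (S f) z = z * ev f z := by
  rw [ev, ev, (ev_summable (S f) z hz).tsum_eq_zero_add, S_zero, zero_mul, zero_add,
    ← tsum_mul_left]
  congr 1
  funext n
  rw [S_succ, pow_succ]
  ring

/-! ### The functional equation -/

/-- The first form. -/
def N1 (a b c d z w : ℂ) : ℂ := (c * z + d) * (conj c * w + conj d) - (a * z + b) * (conj a * w + conj b)

/-- The second form. -/
def N2 (a b c d z w : ℂ) : ℂ :=
  (conj d - conj b * z) * (d - b * w) - (conj a * z - conj c) * (a * w - c)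

lemma functional (ψ : ℂ → ℂ) (a b c d : ℂ)
    (hφ : ∀ z : ℂ, ‖z‖ < 1 → c * z + d ≠ 0 ∧ ‖(a * z + b) / (c * z + d)‖ < 1) (W : Op)
    (hW : IsWeightedComposition ψ (fun z => (a * z + b) / (c * z + d)) W) (hN : IsNormalOp W) :
    ∃ (F : ℂ → ℂ) (χ : H2), (∀ z : ℂ, ‖z‖ < 1 → ev χ z = (c * z + d) * ψ z) ∧
      ∀ z w : ℂ, ‖z‖ < 1 → ‖w‖ < 1 → N1 a b c d z (conj w) ≠ 0 ∧
      N1 a b c d z (conj w) * (F z + conj (F w)) =
        N2 a b c d z (conj w) * (((c * z + d) * ψ z) * conj ((c * w + d) * ψ w)) := by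
  obtain ⟨W', hadj, hcomm⟩ := hN
  have h01 : ‖(0 : ℂ)‖ < 1 := by simp
  set ψ0 : H2 := ap W (K 0 h01) with hψ0
  have hψ : ∀ z : ℂ, ‖z‖ < 1 → ev ψ0 z = ψ z := by
    intro z hz
    rw [hψ0, hW _ z hz, ev_K 0 h01 _ (hφ z hz).2]
    simp
  set χ : H2 := c • S ψ0 + d • ψ0 with hχ
  have hχev : ∀ z : ℂ, ‖z‖ < 1 → ev χ z = (c * z + d) * ψ z := by
    intro z hz
    rw [hχ, ev_add _ _ _ hz, ev_smul, ev_smul, ev_S _ _ hz, hψ z hz]
    ring
  -- the adjoint on kernels
  have hadjK : ∀ (w : ℂ) (hw : ‖w‖ < 1), ap W' (K w hw) = conj (ψ w) • K _ (hφ w hw).2 := by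
    intro w hw
    apply ev_inj
    intro z hz
    have h1 : ev (ap W' (K w hw)) z = conj (ev (ap W (K z hz)) w) := by
      rw [← ip_K z hz, ← hadj, ← ip_K w hw, ip_def, ip_def, inner_conj_symm]
    rw [h1, hW _ w hw, ev_smul, ev_K z hz _ (hφ w hw).2, ev_K _ (hφ w hw).2 z hz]
    simp only [map_mul, map_div₀, map_one, map_sub, Complex.conj_conj]
    rw [mul_comm z]
  -- the kernel identity
  have hXX : ∀ (z w : ℂ) (hz : ‖z‖ < 1) (hw : ‖w‖ < 1), ip (ap W (K z hz)) (ap W (K w hw)) =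
      ψ z * conj (ψ w) *
        (1 / (1 - conj ((a * w + b) / (c * w + d)) * ((a * z + b) / (c * z + d)))) := by
    intro z w hz hw
    rw [hadj, ← hcomm]
    have h2 : ip (K z hz) (ap W (ap W' (K w hw))) =
        ψ z * ev (ap W' (K w hw)) ((a * z + b) / (c * z + d)) := by
      rw [ip_K, hW _ z hz]
    rw [h2, hadjK, ev_smul, ev_K _ (hφ w hw).2 _ (hφ z hz).2]
    ring
  -- the relation for `X w = W (K w)`
  have hX : ∀ (w : ℂ) (hw : ‖w‖ < 1), (d - b * conj w) • ap W (K w hw) =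
      χ + (a * conj w - c) • S (ap W (K w hw)) := by
    intro w hw
    apply ev_inj
    intro z hz
    rw [ev_add _ _ _ hz, ev_smul, ev_smul, ev_S _ _ hz, hχev z hz, hW _ z hz,
      ev_K w hw _ (hφ z hz).2]
    have hp := (hφ z hz).1
    have hq := (hφ z hz).2
    have hne : 1 - conj w * ((a * z + b) / (c * z + d)) ≠ 0 := by
      intro h
      have h1 : ‖conj w * ((a * z + b) / (c * z + d))‖ = 1 := by
        rw [← sub_eq_zero.1 h, norm_one]
      rw [norm_mul, RCLike.norm_conj] at h1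
      have := norm_nonneg w
      have := norm_nonneg ((a * z + b) / (c * z + d))
      nlinarith
    have e1 : 1 - conj w * ((a * z + b) / (c * z + d)) =
        ((c * z + d) - conj w * (a * z + b)) / (c * z + d) := by
      rw [sub_div, div_self hp, mul_div_assoc]
    have hne' : (c * z + d) - conj w * (a * z + b) ≠ 0 := by
      intro h
      apply hne
      rw [e1, h, zero_div]
    rw [e1, one_div_div]
    have e2 : ψ z * ((c * z + d) / ((c * z + d) - conj w * (a * z + b))) *
        ((c * z + d) - conj w * (a * z + b)) = ψ z * (c * z + d) := by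
      rw [mul_assoc, div_mul_cancel₀ _ hne']
    linear_combination e2
  have key : ∀ (z w : ℂ) (hz : ‖z‖ < 1) (hw : ‖w‖ < 1),
      N2 a b c d z (conj w) * ip (ap W (K z hz)) (ap W (K w hw)) =
        ip ((d - b * conj z) • ap W (K z hz)) χ + ip χ ((d - b * conj w) • ap W (K w hw)) -
          ip χ χ := by
    intro z w hz hw
    set X := ap W (K z hz) with hXd
    set Y := ap W (K w hw) with hYd
    have r1 := hX z hz
    have r2 := hX w hw
    rw [← hXd] at r1
    rw [← hYd] at r2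
    have t1 : ip ((d - b * conj z) • X) ((d - b * conj w) • Y) =
        (conj d - conj b * z) * (d - b * conj w) * ip X Y := by
      rw [ip_def, inner_smul_left, inner_smul_right, ip_def]
      simp only [map_sub, map_mul, Complex.conj_conj]
      ring
    have t2 : ip ((a * conj z - c) • S X) ((a * conj w - c) • S Y) =
        (conj a * z - conj c) * (a * conj w - c) * ip X Y := by
      rw [← ip_S X Y, ip_def, inner_smul_left, inner_smul_right, ip_def]
      simp only [map_sub, map_mul, Complex.conj_conj]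
      ring
    have t3 : (a * conj z - c) • S X = (d - b * conj z) • X - χ := by rw [r1]; abel
    have t4 : (a * conj w - c) • S Y = (d - b * conj w) • Y - χ := by rw [r2]; abel
    rw [t3, t4] at t2
    have t5 : ip ((d - b * conj z) • X - χ) ((d - b * conj w) • Y - χ) =
        ip ((d - b * conj z) • X) ((d - b * conj w) • Y) - ip ((d - b * conj z) • X) χ -
          ip χ ((d - b * conj w) • Y) + ip χ χ := by
      simp only [ip_def, inner_sub_left, inner_sub_right]
      ring
    rw [t5, t1] at t2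
    rw [N2]
    linear_combination t2
  refine ⟨fun z => if hz : ‖z‖ < 1 then ip ((d - b * conj z) • ap W (K z hz)) χ - ip χ χ / 2 else 0,
    χ, hχev, fun z w hz hw => ?_⟩
  simp only [dif_pos hz, dif_pos hw]
  have hreal : conj (ip χ χ) = ip χ χ := by rw [ip_def, inner_conj_symm]
  have hc2 : conj (ip ((d - b * conj w) • ap W (K w hw)) χ - ip χ χ / 2) =
      ip χ ((d - b * conj w) • ap W (K w hw)) - ip χ χ / 2 := by
    rw [map_sub, map_div₀, hreal]
    have h2 : conj (2 : ℂ) = 2 := map_ofNat _ 2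
    rw [h2, ip_def, inner_conj_symm, ← ip_def]
  rw [hc2]
  have hk := key z w hz hw
  rw [hXX z w hz hw] at hk
  have hp := (hφ z hz).1
  have hp' := (hφ w hw).1
  have hpc : conj c * conj w + conj d ≠ 0 := by
    intro h
    apply hp'
    have := congrArg conj h
    simpa using this
  have hden : 1 - conj ((a * w + b) / (c * w + d)) * ((a * z + b) / (c * z + d)) ≠ 0 := by
    intro h
    have h1 : ‖conj ((a * w + b) / (c * w + d)) * ((a * z + b) / (c * z + d))‖ = 1 := by
      rw [← sub_eq_zero.1 h, norm_one]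
    rw [norm_mul, RCLike.norm_conj] at h1
    have a1 := (hφ z hz).2
    have a2 := (hφ w hw).2
    have := norm_nonneg ((a * w + b) / (c * w + d))
    have := norm_nonneg ((a * z + b) / (c * z + d))
    nlinarith
  have hN1 : N1 a b c d z (conj w) = (c * z + d) * (conj c * conj w + conj d) *
      (1 - conj ((a * w + b) / (c * w + d)) * ((a * z + b) / (c * z + d))) := by
    have e1 : (c * z + d) * ((a * z + b) / (c * z + d)) = a * z + b := mul_div_cancel₀ _ hp
    have e2 : (conj c * conj w + conj d) * ((conj a * conj w + conj b) /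
        (conj c * conj w + conj d)) = conj a * conj w + conj b := mul_div_cancel₀ _ hpc
    rw [N1]
    simp only [map_div₀, map_add, map_mul]
    linear_combination (conj a * conj w + conj b) * e1 + ((c * z + d) *
      ((a * z + b) / (c * z + d))) * e2
  refine ⟨by rw [hN1]; exact mul_ne_zero (mul_ne_zero hp hpc) hden, ?_⟩
  have hfin : (ip ((d - b * conj z) • ap W (K z hz)) χ - ip χ χ / 2 +
      (ip χ ((d - b * conj w) • ap W (K w hw)) - ip χ χ / 2)) =
      N2 a b c d z (conj w) * (ψ z * conj (ψ w) *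
        (1 / (1 - conj ((a * w + b) / (c * w + d)) * ((a * z + b) / (c * z + d))))) := by
    rw [hk]; ring
  rw [hfin, hN1]
  simp only [map_mul, map_add]
  have : (1 - conj ((a * w + b) / (c * w + d)) * ((a * z + b) / (c * z + d))) *
      (1 / (1 - conj ((a * w + b) / (c * w + d)) * ((a * z + b) / (c * z + d)))) = 1 := by
    rw [mul_one_div, div_self hden]
  linear_combination ((c * z + d) * (conj c * conj w + conj d) * N2 a b c d z (conj w) *
    (ψ z * conj (ψ w))) * this


/-! ### The elimination -/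

lemma ident (f : ℂ → ℂ) (hf : Differentiable ℂ f) (U : Set ℂ) (hU : IsOpen U) (hne : U.Nonempty)
    (h : ∀ z ∈ U, f z = 0) (z : ℂ) : f z = 0 := by
  obtain ⟨z0, hz0⟩ := hne
  have h1 : AnalyticOnNhd ℂ f univ := hf.differentiableOn.analyticOnNhd isOpen_univ
  have h2 := h1.eqOn_zero_of_preconnected_of_eventuallyEq_zero isPreconnected_univ (mem_univ z0)
    (by
      filter_upwards [hU.mem_nhds hz0] with z hz
      exact h z hz)
  exact h2 (mem_univ z)

lemma elim (U : Set ℂ) (hU : IsOpen U) (hne : U.Nonempty) (χ F : ℂ → ℂ)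
    (hχ : ∀ z ∈ U, χ z ≠ 0) (A1 A2 A3 B1 B2 B3 a1 a2 a3 b1 b2 b3 c1 c2 c3 d1 d2 d3 : ℂ)
    (hB1 : B1 ≠ 0) (hB2 : B2 ≠ 0) (hc1 : c1 ≠ 0) (hc2 : c2 ≠ 0)
    (h12 : A2 * B1 - A1 * B2 ≠ 0) (h13 : A3 * B1 - A1 * B3 ≠ 0) (h23 : A3 * B2 - A2 * B3 ≠ 0)
    (e1 : ∀ z ∈ U, (A1 + B1 * z) * (F z + d1) = (a1 + b1 * z) * (χ z * c1))
    (e2 : ∀ z ∈ U, (A2 + B2 * z) * (F z + d2) = (a2 + b2 * z) * (χ z * c2))
    (e3 : ∀ z ∈ U, (A3 + B3 * z) * (F z + d3) = (a3 + b3 * z) * (χ z * c3)) :
    a1 * B1 = A1 * b1 ∨ a2 * B2 = A2 * b2 := by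
  by_cases hd : d2 = d3
  · right
    have hQ := ident (fun z => c2 * (A3 + B3 * z) * (a2 + b2 * z) -
      c3 * (A2 + B2 * z) * (a3 + b3 * z)) (by fun_prop) U hU hne (fun z hz => by
        apply mul_left_cancel₀ (hχ z hz)
        rw [mul_zero]
        have t2 := e2 z hz
        have t3 := e3 z hz
        rw [hd] at t2
        linear_combination (-(A3 + B3 * z)) * t2 + (A2 + B2 * z) * t3) (-A2 / B2)
    have hz : B2 * (-A2 / B2) = -A2 := mul_div_cancel₀ _ hB2
    have h1 : A2 + B2 * (-A2 / B2) = 0 := by rw [hz]; ring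
    rw [h1, mul_zero, zero_mul, sub_zero] at hQ
    have h2 : A3 + B3 * (-A2 / B2) ≠ 0 := by
      intro h
      apply h23
      have : B2 * (A3 + B3 * (-A2 / B2)) = A3 * B2 - A2 * B3 := by
        linear_combination B3 * hz
      rw [← this, h, mul_zero]
    have h3 : a2 + b2 * (-A2 / B2) = 0 := by
      rcases mul_eq_zero.1 hQ with h | h
      · rcases mul_eq_zero.1 h with h | h
        · exact absurd h hc2
        · exact absurd h h2
      · exact h
    linear_combination B2 * h3 - b2 * hz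
  · left
    have hQ := ident (fun z => (d2 - d3) * c1 * (a1 + b1 * z) * (A2 + B2 * z) * (A3 + B3 * z) +
      (d3 - d1) * c2 * (A1 + B1 * z) * (a2 + b2 * z) * (A3 + B3 * z) +
      (d1 - d2) * c3 * (A1 + B1 * z) * (A2 + B2 * z) * (a3 + b3 * z)) (by fun_prop) U hU hne
      (fun z hz => by
        apply mul_left_cancel₀ (hχ z hz)
        rw [mul_zero]
        have t1 := e1 z hz
        have t2 := e2 z hz
        have t3 := e3 z hz
        linear_combination (-(d2 - d3) * (A2 + B2 * z) * (A3 + B3 * z)) * t1 -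
          ((d3 - d1) * (A1 + B1 * z) * (A3 + B3 * z)) * t2 -
          ((d1 - d2) * (A1 + B1 * z) * (A2 + B2 * z)) * t3) (-A1 / B1)
    have hz : B1 * (-A1 / B1) = -A1 := mul_div_cancel₀ _ hB1
    have h1 : A1 + B1 * (-A1 / B1) = 0 := by rw [hz]; ring
    rw [h1] at hQ
    have h2 : A2 + B2 * (-A1 / B1) ≠ 0 := by
      intro h
      apply h12
      have : B1 * (A2 + B2 * (-A1 / B1)) = A2 * B1 - A1 * B2 := by
        linear_combination B2 * hz
      rw [← this, h, mul_zero]
    have h3 : A3 + B3 * (-A1 / B1) ≠ 0 := by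
      intro h
      apply h13
      have : B1 * (A3 + B3 * (-A1 / B1)) = A3 * B1 - A1 * B3 := by
        linear_combination B3 * hz
      rw [← this, h, mul_zero]
    have hQ' : ((d2 - d3) * c1 * (A2 + B2 * (-A1 / B1)) * (A3 + B3 * (-A1 / B1))) *
        (a1 + b1 * (-A1 / B1)) = 0 := by
      linear_combination hQ
    have h4 : a1 + b1 * (-A1 / B1) = 0 := by
      rcases mul_eq_zero.1 hQ' with h | h
      · exact absurd h (mul_ne_zero (mul_ne_zero (mul_ne_zero (sub_ne_zero.2 hd) hc1) h2) h3)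
      · exact h
    linear_combination B1 * h4 - b1 * hz

lemma prop4 (n00 n10 n01 n11 m00 m10 m01 m11 : ℂ) (hdet : n00 * n11 - n10 * n01 ≠ 0)
    (h1 : m00 * n10 = m10 * n00) (h2 : m00 * n11 = m11 * n00) (h3 : m00 * n01 = m01 * n00)
    (h4 : m10 * n11 = m11 * n10) (h6 : m10 * n01 = m01 * n10) :
    ∃ k : ℂ, m00 = k * n00 ∧ m10 = k * n10 ∧ m01 = k * n01 ∧ m11 = k * n11 := by
  by_cases hn : n00 = 0
  · have hn10 : n10 ≠ 0 := by
      intro h
      apply hdet
      rw [hn, h]
      ring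
    refine ⟨m10 / n10, ?_, ?_, ?_, ?_⟩
    · rw [hn, mul_zero] at h1
      rw [hn, mul_zero]
      exact (mul_eq_zero.1 h1).resolve_right hn10
    · rw [div_mul_cancel₀ _ hn10]
    · rw [div_mul_eq_mul_div, eq_div_iff hn10, ← h6]
    · rw [div_mul_eq_mul_div, eq_div_iff hn10, ← h4]
  · refine ⟨m00 / n00, ?_, ?_, ?_, ?_⟩
    · rw [div_mul_cancel₀ _ hn]
    · rw [div_mul_eq_mul_div, eq_div_iff hn, ← h1]
    · rw [div_mul_eq_mul_div, eq_div_iff hn, ← h3]
    · rw [div_mul_eq_mul_div, eq_div_iff hn, ← h2]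

theorem chi_const (a b c d : ℂ) (hdet : a * d - b * c ≠ 0) (χ F : ℂ → ℂ)
    (hχ : AnalyticOnNhd ℂ χ (ball 0 1))
    (hN : ∀ z w : ℂ, ‖z‖ < 1 → ‖w‖ < 1 → N1 a b c d z (conj w) ≠ 0)
    (hF : ∀ z w : ℂ, ‖z‖ < 1 → ‖w‖ < 1 → N1 a b c d z (conj w) * (F z + conj (F w)) =
      N2 a b c d z (conj w) * (χ z * conj (χ w))) :
    ∀ z : ℂ, ‖z‖ < 1 → χ z = χ 0 := by
  -- the coefficients
  set n00 : ℂ := d * conj d - b * conj b with hn00
  set n10 : ℂ := c * conj d - a * conj b with hn10
  set n01 : ℂ := conj c * d - conj a * b with hn01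
  set n11 : ℂ := c * conj c - a * conj a with hn11
  set m00 : ℂ := d * conj d - c * conj c with hm00
  set m10 : ℂ := conj a * c - conj b * d with hm10
  set m01 : ℂ := a * conj c - b * conj d with hm01
  set m11 : ℂ := b * conj b - a * conj a with hm11
  have hdet' : conj a * conj d - conj b * conj c ≠ 0 := by
    intro h
    apply hdet
    have := congrArg conj h
    simpa using this
  have hN1 : ∀ z w, N1 a b c d z w = (n00 + n01 * w) + (n10 + n11 * w) * z := by
    intro z w
    rw [N1]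
    ring
  have hN2 : ∀ z w, N2 a b c d z w = (m00 + m01 * w) + (m10 + m11 * w) * z := by
    intro z w
    rw [N2]
    ring
  have hnd : n00 * n11 - n10 * n01 ≠ 0 := by
    have : n00 * n11 - n10 * n01 = -((a * d - b * c) * (conj a * conj d - conj b * conj c)) := by
      ring
    rw [this]
    exact neg_ne_zero.2 (mul_ne_zero hdet hdet')
  have hmd : m00 * m11 - m10 * m01 ≠ 0 := by
    have : m00 * m11 - m10 * m01 = -((a * d - b * c) * (conj a * conj d - conj b * conj c)) := by
      ring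
    rw [this]
    exact neg_ne_zero.2 (mul_ne_zero hdet hdet')
  by_cases h0 : ∀ z : ℂ, ‖z‖ < 1 → χ z = 0
  · intro z hz
    rw [h0 z hz, h0 0 (by simp)]
  push Not at h0
  obtain ⟨z0, hz0, hz0'⟩ := h0
  -- the good set
  set U : Set ℂ := {z | ‖z‖ < 1 ∧ χ z ≠ 0} with hUdef
  have hUopen : IsOpen U := by
    rw [isOpen_iff_mem_nhds]
    rintro z ⟨hz1, hz2⟩
    have hc : ContinuousAt χ z := (hχ z (by simpa using hz1)).continuousAt
    filter_upwards [isOpen_ball.mem_nhds (show z ∈ ball (0 : ℂ) 1 by simpa using hz1),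
      hc.eventually_ne hz2] with w hw1 hw2
    exact ⟨by simpa using hw1, hw2⟩
  have hUne : U.Nonempty := ⟨z0, hz0, hz0'⟩
  -- removing the zeros of a nonzero polynomial in `conj w`
  have hremove : ∀ (V : Set ℂ) (P : ℂ → ℂ), IsOpen V → V.Nonempty → Differentiable ℂ P →
      (∃ x, P x ≠ 0) → IsOpen (V ∩ {w | P (conj w) ≠ 0}) ∧ (V ∩ {w | P (conj w) ≠ 0}).Nonempty := by
    intro V P hV hVne hP hPne
    constructor
    · refine hV.inter ?_
      have : Continuous fun w : ℂ => P (conj w) := hP.continuous.comp Complex.continuous_conj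
      exact isOpen_ne_fun this continuous_const
    · by_contra hcon
      rw [Set.not_nonempty_iff_eq_empty] at hcon
      obtain ⟨x, hx⟩ := hPne
      apply hx
      have hV' : IsOpen ((fun w : ℂ => conj w) ⁻¹' V) := hV.preimage Complex.continuous_conj
      refine ident P hP _ hV' ?_ ?_ x
      · obtain ⟨v, hv⟩ := hVne
        exact ⟨conj v, by simpa using hv⟩
      · intro w hw
        by_contra hne
        have : conj w ∈ V ∩ {w | P (conj w) ≠ 0} := ⟨hw, by simpa using hne⟩
        rw [hcon] at this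
        exact this
  obtain ⟨hV1, hV2⟩ := hremove U (fun w => n10 + n11 * w) hUopen hUne (by fun_prop) (by
    by_contra hcon
    push Not at hcon
    have t0 := hcon 0
    have t1 := hcon 1
    apply hnd
    linear_combination (n00 - n01) * t1 - (n00) * (t0) - n01 * (t0 - t1))
  -- the resultant vanishes identically
  have hQ : ∀ x : ℂ, (m00 + m01 * x) * (n10 + n11 * x) - (n00 + n01 * x) * (m10 + m11 * x) = 0 := by
    by_contra hcon
    push Not at hcon
    obtain ⟨hW1, hW2⟩ := hremove _ (fun x => (m00 + m01 * x) * (n10 + n11 * x) -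
      (n00 + n01 * x) * (m10 + m11 * x)) hV1 hV2 (by fun_prop) hcon
    have hinf : (U ∩ {w | n10 + n11 * conj w ≠ 0} ∩
        {w | (m00 + m01 * conj w) * (n10 + n11 * conj w) -
          (n00 + n01 * conj w) * (m10 + m11 * conj w) ≠ 0}).Infinite :=
      infinite_of_mem_nhds _ (hW1.mem_nhds hW2.some_mem)
    obtain ⟨T, hT1, hT2⟩ := hinf.exists_subset_card_eq 3
    obtain ⟨w1, w2, w3, h12, h13, h23, rfl⟩ := Finset.card_eq_three.1 hT2
    have g1 := hT1 (show w1 ∈ ((({w1, w2, w3} : Finset ℂ)) : Set ℂ) by simp)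
    have g2 := hT1 (show w2 ∈ ((({w1, w2, w3} : Finset ℂ)) : Set ℂ) by simp)
    have g3 := hT1 (show w3 ∈ ((({w1, w2, w3} : Finset ℂ)) : Set ℂ) by simp)
    obtain ⟨⟨⟨g11, g12⟩, g13⟩, g14⟩ := g1
    obtain ⟨⟨⟨g21, g22⟩, g23⟩, g24⟩ := g2
    obtain ⟨⟨⟨g31, g32⟩, g33⟩, g34⟩ := g3
    have hcne : ∀ u v : ℂ, u ≠ v → conj u ≠ conj v := fun u v h h' => h ((starRingEnd ℂ).injective h')
    have hres : ∀ u v : ℂ, u ≠ v →
        (n00 + n01 * conj v) * (n10 + n11 * conj u) - (n00 + n01 * conj u) * (n10 + n11 * conj v) ≠ 0 := by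
      intro u v huv
      have : (n00 + n01 * conj v) * (n10 + n11 * conj u) -
          (n00 + n01 * conj u) * (n10 + n11 * conj v) =
          (n00 * n11 - n10 * n01) * (conj u - conj v) := by ring
      rw [this]
      exact mul_ne_zero hnd (sub_ne_zero.2 (hcne u v huv))
    have hcχ : ∀ u, χ u ≠ 0 → conj (χ u) ≠ 0 := fun u h => (map_ne_zero _).2 h
    have hE : ∀ w, ‖w‖ < 1 → ∀ z ∈ U, ((n00 + n01 * conj w) + (n10 + n11 * conj w) * z) *
        (F z + conj (F w)) = ((m00 + m01 * conj w) + (m10 + m11 * conj w) * z) *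
          (χ z * conj (χ w)) := by
      intro w hw z hz
      rw [← hN1, ← hN2]
      exact hF z w hz.1 hw
    rcases elim U hUopen hUne χ F (fun z hz => hz.2) _ _ _ _ _ _ _ _ _ _ _ _ _ _ _ _ _ _
      g13 g23 (hcχ _ g12) (hcχ _ g22) (hres w1 w2 h12) (hres w1 w3 h13) (hres w2 w3 h23)
      (hE w1 g11) (hE w2 g21) (hE w3 g31) with h | h
    · exact g14 (sub_eq_zero.2 h)
    · exact g24 (sub_eq_zero.2 h)
  -- proportionality
  have q0 := hQ 0
  have q1 := hQ 1
  have q2 := hQ (-1)
  have r1 : m00 * n10 = m10 * n00 := by linear_combination q0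
  have r5 : m01 * n11 = m11 * n01 := by linear_combination (q1 + q2) / 2 - q0
  have r2 : m00 * n11 + m01 * n10 = m10 * n01 + m11 * n00 := by linear_combination (q1 - q2) / 2
  have c00 : conj n00 = n00 := by rw [hn00]; simp; ring
  have c11 : conj n11 = n11 := by rw [hn11]; simp; ring
  have c10 : conj n10 = n01 := by rw [hn10, hn01]; simp
  have c01 : conj n01 = n10 := by rw [hn10, hn01]; simp
  have k00 : conj m00 = m00 := by rw [hm00]; simp; ring
  have k11 : conj m11 = m11 := by rw [hm11]; simp; ring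
  have k10 : conj m10 = m01 := by rw [hm10, hm01]; simp
  have k01 : conj m01 = m10 := by rw [hm10, hm01]; simp
  have r1' : m00 * n01 = m01 * n00 := by
    have := congrArg conj r1
    rwa [map_mul, map_mul, k00, c10, k10, c00] at this
  have r5' : m10 * n11 = m11 * n10 := by
    have := congrArg conj r5
    rwa [map_mul, map_mul, k01, c11, k11, c01] at this
  have r2' : m00 * n11 + m10 * n01 = m01 * n10 + m11 * n00 := by
    have := congrArg conj r2
    rwa [map_add, map_add, map_mul, map_mul, map_mul, map_mul, k00, c11, k01, c10, k10, c01,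
      k11, c00] at this
  obtain ⟨k, hk00, hk10, hk01, hk11⟩ := prop4 n00 n10 n01 n11 m00 m10 m01 m11 hnd r1
    (by linear_combination (r2 + r2') / 2) r1' r5' (by linear_combination (r2' - r2) / 2)
  have hk0 : k ≠ 0 := by
    intro h
    apply hmd
    rw [hk00, hk10, hk01, hk11, h]
    ring
  have hkey : ∀ z w : ℂ, ‖z‖ < 1 → ‖w‖ < 1 → F z + conj (F w) = k * (χ z * conj (χ w)) := by
    intro z w hz hw
    have h1 : N2 a b c d z (conj w) = k * N1 a b c d z (conj w) := by
      rw [hN1, hN2, hk00, hk10, hk01, hk11]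
      ring
    have h2 := hF z w hz hw
    rw [h1] at h2
    apply mul_left_cancel₀ (hN z w hz hw)
    rw [h2]
    ring
  intro z hz
  have h00 : ‖(0 : ℂ)‖ < 1 := by simp
  have s1 := hkey z z hz hz
  have s2 := hkey z 0 hz h00
  have s3 := hkey 0 z h00 hz
  have s4 := hkey 0 0 h00 h00
  have s5 : k * ((χ z - χ 0) * conj (χ z - χ 0)) = 0 := by
    rw [map_sub]
    linear_combination s2 + s3 - s1 - s4
  have s6 := (mul_eq_zero.1 s5).resolve_left hk0
  rcases mul_eq_zero.1 s6 with h | h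
  · exact sub_eq_zero.1 h
  · have := (map_eq_zero _).1 h
    exact sub_eq_zero.1 this

/-- If `W` is a bounded normal weighted composition operator on `H²` whose composition symbol is
the linear fractional self-map `z ↦ (a z + b) / (c z + d)` of the disc, then its weight symbol is
`C / (c z + d)` for a constant `C`; in particular it is linear fractional. -/
theorem result (a b c d : ℂ) (hdet : a * d - b * c ≠ 0)
    (hφ : ∀ z : ℂ, ‖z‖ < 1 → c * z + d ≠ 0 ∧ ‖(a * z + b) / (c * z + d)‖ < 1)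
    (ψ : ℂ → ℂ) (W : Op) (hW : IsWeightedComposition ψ (fun z => (a * z + b) / (c * z + d)) W)
    (hN : IsNormalOp W) :
    (∃ C : ℂ, ∀ z : ℂ, ‖z‖ < 1 → ψ z = C / (c * z + d)) ∧ IsLinearFractional ψ := by
  obtain ⟨F, χ, hχ, hF⟩ := functional ψ a b c d hφ W hW hN
  have h1 : ∀ z : ℂ, ‖z‖ < 1 → ev χ z = ev χ 0 := by
    refine chi_const a b c d hdet (ev χ) F (ev_analytic χ) (fun z w hz hw => (hF z w hz hw).1)
      (fun z w hz hw => ?_)
    rw [hχ z hz, hχ w hw]
    exact (hF z w hz hw).2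
  have h2 : ∀ z : ℂ, ‖z‖ < 1 → ψ z = ev χ 0 / (c * z + d) := by
    intro z hz
    rw [← h1 z hz, hχ z hz, mul_comm, mul_div_assoc, div_self (hφ z hz).1, mul_one]
  exact ⟨⟨_, h2⟩, 0, ev χ 0, c, d, fun z hz => ⟨(hφ z hz).1, by rw [zero_mul, zero_add, h2 z hz]⟩⟩

end Pool.Agent.Results.MP_9100ee_an.NormalWeight
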